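import Pool.Agent.DU59.Gd

/-!
The dual of CLAIM 1 and THEOREM I+ (notes 2812, 2843 of MP_e6151a_ag).

* `Dt r f W G`: `2 r G + f = |G \ W| + |W|`;
* `DW r E f Q W`: the elements outside `W` of the good bases in `Q` which contain `W`;
* `dclaim1`: if a good basis in `Q` contains `W` properly then the smallest `A` with `Dt r f W A` is not spanned by `A \ DW`;
* `thIp`: if `b` in `Q` is closest to `b₁` not in `Q` then there are `F ≠ ∅`, `A ≠ E` tight for both, with `F ∩ b = F ∩ b₁`, and the difference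
  of `b`, `b₁` in `A`.
-/

set_option autoImplicit false

namespace Pool.Agent.DU59

open Finset Pool.Agent.DT3 Pool.Agent.CF98 Pool.Agent.WT59 Pool.Agent.WG59

variable {α : Type*} [DecidableEq α] {r : Finset α → ℕ} {E T W G b b₁ : Finset α} {f : ℕ} {Q : Finset α → Prop}

/-- `G` is a minimiser of `2 r G - |G \ W|`. -/
def Dt (r : Finset α → ℕ) (f : ℕ) (W G : Finset α) : Prop := 2 * r G + f = (G \ W).card + W.card

open Classical in
/-- The elements of the good bases in `Q` which contain `W`. -/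
noncomputable def DW (r : Finset α → ℕ) (E : Finset α) (f : ℕ) (Q : Finset α → Prop) (W : Finset α) : Finset α :=
  E.filter fun e => e ∉ W ∧ ∃ b, Bl r E f Q b ∧ W ⊆ b ∧ e ∈ b

/-- The condition for `W` in terms of a good basis. -/
theorem dt_gd (hE : Env r E f) (hb : Gd r E f b) (hW : W ⊆ b) (hG : G ⊆ E) (h : Dt r f W G) :
    b \ W ⊆ G ∧ sg r b G = 0 := by
  have h1 := sg_nonneg hE.rk hb.2.2 G hG
  have h2 : (G \ W).card = (G \ b).card + (G ∩ (b \ W)).card := by
    rw [← card_union_of_disjoint]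
    · congr 1
      ext z
      have := @hW z
      simp only [mem_union, mem_sdiff, mem_inter]
      tauto
    · rw [Finset.disjoint_left]
      intro z hz hz'
      exact (mem_sdiff.1 hz).2 (mem_sdiff.1 (mem_inter.1 hz').2).1
  have h3 := card_sdiff_add_card_eq_card hW
  have h4 := hb.2.1.1
  have h5 : (G ∩ (b \ W)).card ≤ (b \ W).card := card_le_card inter_subset_right
  unfold Dt at h
  unfold sg at h1 ⊢
  have h6 : (b \ W).card ≤ (G ∩ (b \ W)).card := by omega
  have h7 : G ∩ (b \ W) = b \ W := eq_of_subset_of_card_le inter_subset_right h6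
  exact ⟨inter_eq_right.1 h7, by omega⟩

theorem gd_dt (hb : Gd r E f b) (hW : W ⊆ b) (h : b \ W ⊆ G) (h0 : sg r b G = 0) : Dt r f W G := by
  have h2 : (G \ W).card = (G \ b).card + (b \ W).card := by
    rw [← card_union_of_disjoint]
    · congr 1
      ext z
      have h3 := @hW z
      have h4 := @h z
      rw [mem_sdiff] at h4
      simp only [mem_union, mem_sdiff]
      tauto
    · rw [Finset.disjoint_left]
      intro z hz hz'
      exact (mem_sdiff.1 hz).2 (mem_sdiff.1 hz').1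
  have h3 := card_sdiff_add_card_eq_card hW
  have h4 := hb.2.1.1
  unfold sg at h0
  unfold Dt
  omega

/-- The doubled class. -/
def Qd (E : Finset α) (Q : Finset α → Prop) (Y : Finset (α × Bool)) : Prop := Q (E \ pr Y)

theorem qd_stp (hE : Env r E f) (hQ : ∀ A A', Stp r E f A A' → Q A → Q A') :
    ∀ Y Y', Stp (ds r E) (Eb E) (2 * f) Y Y' → Qd E Q Y → Qd E Q Y' := fun _ _ h =>
  hQ _ _ (stp_pr hE h)

/-- A set which contains both or no copies. -/
theorem ti_ds (hE : Env r E f) (hW : W ⊆ E) (hG : G ⊆ E) :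
    Ti (ds r E) (ds r E) (up (E \ W)) (Eb (E \ G)) ↔ Dt r f W G := by
  have hsub : Eb (E \ G) ⊆ Eb E := by
    rintro ⟨e, i⟩ he
    exact mem_Eb.2 (mem_sdiff.1 (mem_Eb.1 he)).1
  have h1 := ds_add hE.rk hsub
  rw [pr_Eb, sdiff_sdiff_right_self, hE.rank] at h1
  have e1 : r (E ⊓ G) = r G := by
    have e : E ⊓ G = G := inter_eq_right.2 hG
    rw [e]
  rw [e1] at h1
  have h2 := card_sdiff_add_card_inter (Eb (E \ G)) (up (E \ W))
  rw [card_Eb] at h2
  have h3 : Eb (E \ G) ∩ up (E \ W) = up (E \ (G ∪ W)) := by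
    ext ⟨e, i⟩
    rw [mem_inter, mem_Eb, mem_up, mem_up, mem_sdiff, mem_sdiff, mem_sdiff, mem_union]
    tauto
  rw [h3, card_up] at h2
  have h4 := card_sdiff_add_card_eq_card hG
  have h5 := card_sdiff_add_card_eq_card (union_subset hG hW)
  have h6 : (G ∪ W).card = (G \ W).card + W.card := by
    rw [← sdiff_union_self_eq_union, card_union_of_disjoint sdiff_disjoint]
  rw [hE.card] at h4 h5
  unfold Ti Dt
  omega

theorem dclaim1 (hE : Env r E f) (hQ : ∀ A A', Stp r E f A A' → Q A → Q A') (hWc : W.card < f)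
    (hb : ∃ b, Bl r E f Q b ∧ W ⊆ b) :
    ∃ A ⊆ E, Dt r f W A ∧ (∀ G ⊆ E, Dt r f W G → A ⊆ G) ∧ r (A \ DW r E f Q W) < r A := by
  classical
  have hE2 := env_ds hE
  obtain ⟨b, hb, hWb⟩ := hb
  have hW : W ⊆ E := hWb.trans hb.1.1
  set X := up (E \ W) with hX
  have hXE : X ⊆ Eb E := up_sub sdiff_subset
  have hXc : X.card + W.card = 3 * f := by
    rw [hX, card_up, ← hE.card]
    exact card_sdiff_add_card_eq_card hW
  have hlift : ∀ b, Bl r E f Q b → Bl (ds r E) (Eb E) (2 * f) (Qd E Q) (up (E \ b)) := by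
    intro b hb
    refine ⟨gd_up hE hb.1, ?_⟩
    unfold Qd
    rw [pr_up, sdiff_sdiff_right_self]
    have e : E ⊓ b = b := inter_eq_right.2 hb.1.1
    rw [e]
    exact hb.2
  have hbX : ∃ Y, Bl (ds r E) (Eb E) (2 * f) (Qd E Q) Y ∧ Y ⊆ X := by
    refine ⟨up (E \ b), hlift b hb, ?_⟩
    rintro ⟨e, i⟩ he
    rw [mem_up] at he
    exact mem_up.2 ⟨sdiff_subset_sdiff (subset_refl E) hWb he.1, he.2⟩
  have h1 := claim1 hE2 (qd_stp hE hQ) hXE (by omega) hbX
  set F := FF (ds r E) (ds r E) (Eb E) X with hF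
  set U := US (Bl (ds r E) (Eb E) (2 * f) (Qd E Q)) X with hU
  obtain ⟨Y, hY, hYX⟩ := hbX
  have hok : Ok (ds r E) (ds r E) (Eb E) X := ok_sub (gd_ok hE2 hY.1) hYX
  have hFE : F ⊆ Eb E := FF_sub
  have hFt : Ti (ds r E) (ds r E) X F := FF_ti hE2.rk hE2.rk hok
  -- `F` contains both copies
  have hpF : F = Eb (E \ (E \ pr F)) := by
    have e0 : E \ (E \ pr F) = pr F := by
      rw [sdiff_sdiff_right_self]
      exact inter_eq_right.2 (pr_sub hFE)
    rw [e0]
    refine Subset.antisymm ?_ ?_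
    · rintro ⟨e, i⟩ he
      exact mem_Eb.2 (mem_pr.2 ⟨i, he⟩)
    · refine FF_max ?_ ?_
      · rintro ⟨e, i⟩ he
        exact mem_Eb.2 (pr_sub hFE (mem_Eb.1 he))
      · have h2 : ds r E (Eb (pr F)) = ds r E F := by
          unfold ds
          rw [pr_Eb]
        have h3 := hok (Eb (pr F)) (by
          rintro ⟨e, i⟩ he
          exact mem_Eb.2 (pr_sub hFE (mem_Eb.1 he)))
        have h4 : (F \ X).card ≤ (Eb (pr F) \ X).card := card_le_card (sdiff_subset_sdiff (by
          rintro ⟨e, i⟩ he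
          exact mem_Eb.2 (mem_pr.2 ⟨i, he⟩)) (subset_refl X))
        unfold Ti at hFt ⊢
        rw [h2] at h3 ⊢
        omega
  refine ⟨E \ pr F, sdiff_subset, ?_, ?_, ?_⟩
  · rw [← ti_ds hE hW sdiff_subset, ← hpF]
    exact hFt
  · intro G hG hD e he
    by_contra hn
    rw [mem_sdiff] at he
    have h2 : Eb (E \ G) ⊆ F := FF_max (by
      rintro ⟨e, i⟩ he
      exact mem_Eb.2 (mem_sdiff.1 (mem_Eb.1 he)).1) ((ti_ds hE hW hG).2 hD)
    exact he.2 (mem_pr.2 ⟨true, h2 (mem_Eb.2 (mem_sdiff.2 ⟨he.1, hn⟩))⟩)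
  · -- the ranks
    have hUX : U ⊆ X := filter_subset _ _
    have hUF : ∀ y ∈ U, y ∉ F := by
      intro y hy
      obtain ⟨hyX, Z, hZ, hZX, hyZ⟩ := mem_filter.1 hy
      exact ti_disj (gd_ok hE2 hZ.1) hZX hFE hFt y hyX hyZ
    have hFUE : F ∪ U ⊆ Eb E := union_subset hFE (hUX.trans hXE)
    have h2 := ds_add hE.rk hFE
    have h3 := ds_add hE.rk hFUE
    rw [pr_union] at h3
    have h4 : U.card = (pr U).card := by
      symm
      unfold pr
      refine card_image_iff.2 ?_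
      rintro ⟨e, i⟩ he ⟨e', i'⟩ he' h
      have h5 := (mem_up.1 (hUX he)).2
      have h6 := (mem_up.1 (hUX he')).2
      rw [h5, h6]
      exact Prod.ext h rfl
    have h5 : Disjoint (pr F) (pr U) := by
      rw [Finset.disjoint_left]
      intro e he he'
      obtain ⟨i, hi⟩ := mem_pr.1 he'
      refine hUF _ hi ?_
      rw [hpF, mem_Eb]
      rw [sdiff_sdiff_right_self]
      exact mem_inter.2 ⟨pr_sub hFE he, he⟩
    rw [card_union_of_disjoint h5] at h3
    have h6 : E \ (pr F ∪ pr U) = (E \ pr F) \ pr U := by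
      ext z
      simp only [mem_sdiff, mem_union]
      tauto
    rw [h6] at h3
    have h7 : r ((E \ pr F) \ DW r E f Q W) ≤ r ((E \ pr F) \ pr U) := by
      refine hE.rk.mono _ _ (sdiff_subset_sdiff (subset_refl _) ?_)
      intro e he
      obtain ⟨i, hi⟩ := mem_pr.1 he
      obtain ⟨hyX, Z, hZ, hZX, hyZ⟩ := mem_filter.1 hi
      obtain ⟨k1, k2⟩ := mem_up.1 hyX
      have k3 := mem_sdiff.1 k1
      refine mem_filter.2 ⟨k3.1, k3.2, E \ pr Z, ⟨gd_pr hE hZ.1, hZ.2⟩, ?_, ?_⟩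
      · intro z hz
        refine mem_sdiff.2 ⟨hW hz, fun h => ?_⟩
        obtain ⟨j, hj⟩ := mem_pr.1 h
        exact (mem_sdiff.1 (mem_up.1 (hZX hj)).1).2 hz
      · refine mem_sdiff.2 ⟨k3.1, fun h => ?_⟩
        obtain ⟨j, hj⟩ := mem_pr.1 h
        have k4 := (mem_up.1 (hZX hj)).2
        refine hyZ ?_
        rw [k2, ← k4]
        exact hj
    omega

/-- THEOREM I+. -/
theorem thIp (hE : Env r E f) (hQ : ∀ A A', Stp r E f A A' → Q A → Q A') (hb₁ : Gd r E f b₁)
    (hn : ¬ Q b₁) (hb : Bl r E f Q b) (hmin : ∀ b', Bl r E f Q b' → (b \ b₁).card ≤ (b' \ b₁).card) :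
    ∃ F ⊆ E, ∃ A ⊆ E, F.Nonempty ∧ A ≠ E ∧ sg r b F = 0 ∧ sg r b₁ F = 0 ∧ F ∩ b = F ∩ b₁ ∧
      sg r b A = 0 ∧ sg r b₁ A = 0 ∧ b \ b₁ ⊆ A ∧ b₁ \ b ⊆ A := by
  classical
  have hpos : 0 < (b \ b₁).card := by
    rw [Nat.pos_iff_ne_zero]
    intro h0
    have h1 : b ⊆ b₁ := by
      rw [card_eq_zero, sdiff_eq_empty_iff_subset] at h0
      exact h0
    have h2 : b = b₁ := eq_of_subset_of_card_le h1 (by rw [hb₁.2.1.1, hb.1.2.1.1])
    exact hn (h2 ▸ hb.2)
  -- the set `F`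
  have hX : b ∪ b₁ ⊆ E := union_subset hb.1.1 hb₁.1
  have hXc : (b ∪ b₁).card = f + (b \ b₁).card := by
    rw [union_comm, ← union_sdiff_self_eq_union, card_union_of_disjoint disjoint_sdiff, hb₁.2.1.1]
  have hok : Ok r r E (b ∪ b₁) := ok_sub (gd_ok hE hb₁) subset_union_right
  have hFt := FF_ti hE.rk hE.rk hok
  have hFE : FF r r E (b ∪ b₁) ⊆ E := FF_sub
  have hm : ∀ y ∈ b ∪ b₁, y ∉ b₁ → y ∉ FF r r E (b ∪ b₁) :=
    ti_disj (gd_ok hE hb₁) subset_union_right hFE hFt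
  have hm' : ∀ y ∈ b ∪ b₁, y ∉ b → y ∉ FF r r E (b ∪ b₁) :=
    ti_disj (gd_ok hE hb.1) subset_union_left hFE hFt
  have hne : (FF r r E (b ∪ b₁)).Nonempty := by
    rw [nonempty_iff_ne_empty]
    intro hF
    have h1 := claim1 hE hQ hX (by omega) ⟨b, hb, subset_union_left⟩
    rw [hF, empty_union, hE.rk.empty, zero_add] at h1
    have h2 : ¬ US (Bl r E f Q) (b ∪ b₁) ⊆ b₁ := by
      intro h3
      have h4 := ind_sub hE.rk (by rw [hb₁.2.1.1, hb₁.2.1.2] : r b₁ = b₁.card) h3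
      omega
    obtain ⟨y, hy, hyb⟩ := not_subset.1 h2
    obtain ⟨hyX, A, hA, hAX, hyA⟩ := mem_filter.1 hy
    have h3 := hmin A hA
    have h4 : A \ b₁ ⊂ b \ b₁ := by
      rw [ssubset_iff_of_subset]
      · refine ⟨y, mem_sdiff.2 ⟨?_, hyb⟩, fun h => hyA (mem_sdiff.1 h).1⟩
        rcases mem_union.1 hyX with h | h
        · exact h
        · exact absurd h hyb
      · intro z hz
        rw [mem_sdiff] at hz ⊢
        refine ⟨?_, hz.2⟩
        rcases mem_union.1 (hAX hz.1) with h | h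
        · exact h
        · exact absurd h hz.2
    have h5 := card_lt_card h4
    omega
  -- the set `A`
  have hWc : (b ∩ b₁).card < f := by
    have h1 := card_sdiff_add_card_inter b b₁
    have h2 := hb.1.2.1.1
    omega
  obtain ⟨A, hA, hD, _, hr⟩ := dclaim1 hE hQ hWc ⟨b, hb, inter_subset_left⟩
  have h1 := dt_gd hE hb.1 inter_subset_left hA hD
  have h2 := dt_gd hE hb₁ inter_subset_right hA hD
  have e1 : b \ (b ∩ b₁) = b \ b₁ := sdiff_inter_self_left b b₁
  have e2 : b₁ \ (b ∩ b₁) = b₁ \ b := sdiff_inter_self_right b₁ b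
  rw [e1] at h1
  rw [e2] at h2
  refine ⟨FF r r E (b ∪ b₁), hFE, A, hA, hne, ?_, ?_, ?_, ?_, h1.2, h2.2, h1.1, h2.1⟩
  · rintro rfl
    have h3 : b₁ ⊆ A \ DW r A f Q (b ∩ b₁) := by
      intro z hz
      refine mem_sdiff.2 ⟨hb₁.1 hz, fun h => ?_⟩
      obtain ⟨_, k1, b', k2, k3, k4⟩ := mem_filter.1 h
      have k5 := hmin b' k2
      have k6 : insert z (b ∩ b₁) ⊆ b' ∩ b₁ :=
        insert_subset (mem_inter.2 ⟨k4, hz⟩) (subset_inter k3 inter_subset_right)
      have k7 := card_le_card k6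
      rw [card_insert_of_notMem k1] at k7
      have k8 := card_sdiff_add_card_inter b b₁
      have k9 := card_sdiff_add_card_inter b' b₁
      have k10 := hb.1.2.1.1
      have k11 := k2.1.2.1.1
      omega
    have h4 := hE.rk.mono _ _ h3
    rw [hb₁.2.1.2] at h4
    rw [hE.rank] at hr
    omega
  · have h3 : Ti r r b (FF r r E (b ∪ b₁)) := by
      unfold Ti at hFt ⊢
      rw [← hFt]
      congr 1
      ext z
      simp only [mem_sdiff]
      constructor
      · rintro ⟨h3, h4⟩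
        exact ⟨h3, fun h5 => hm' z h5 h4 h3⟩
      · rintro ⟨h3, h4⟩
        exact ⟨h3, fun h5 => h4 (mem_union_left _ h5)⟩
    exact (ti_sg b _).1 h3
  · have h3 : Ti r r b₁ (FF r r E (b ∪ b₁)) := by
      unfold Ti at hFt ⊢
      rw [← hFt]
      congr 1
      ext z
      simp only [mem_sdiff]
      constructor
      · rintro ⟨h3, h4⟩
        exact ⟨h3, fun h5 => hm z h5 h4 h3⟩
      · rintro ⟨h3, h4⟩
        exact ⟨h3, fun h5 => h4 (mem_union_right _ h5)⟩
    exact (ti_sg b₁ _).1 h3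
  · ext z
    rw [mem_inter, mem_inter]
    constructor
    · rintro ⟨h3, h4⟩
      refine ⟨h3, ?_⟩
      by_contra h5
      exact hm z (mem_union_left _ h4) h5 h3
    · rintro ⟨h3, h4⟩
      refine ⟨h3, ?_⟩
      by_contra h5
      exact hm' z (mem_union_right _ h4) h5 h3

end Pool.Agent.DU59
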