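import Pool.Agent.DU59.Rk

/-!
Good bases and steps of the doubled dual.

* `gd_up`: the first copies of the complement of a good basis form a good basis of the doubled dual;
* `gd_pr`: conversely;
* `stp_pr`: steps of the doubled dual give steps.
-/

set_option autoImplicit false

namespace Pool.Agent.DU59

open Finset Pool.Agent.DT3 Pool.Agent.CF98 Pool.Agent.WT59 Pool.Agent.WG59

variable {α : Type*} [DecidableEq α] {r : Finset α → ℕ} {E T : Finset α} {f : ℕ}

theorem gd_up (hE : Env r E f) (hT : Gd r E f T) : Gd (ds r E) (Eb E) (2 * f) (up (E \ T)) := by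
  have hc : (E \ T).card = 2 * f := by
    have h1 := card_sdiff_add_card_eq_card hT.1
    rw [hE.card, hT.2.1.1] at h1
    omega
  refine ⟨up_sub sdiff_subset, ⟨by rw [card_up, hc], ?_⟩, ?_⟩
  · have h1 := ds_add hE.rk (up_sub (sdiff_subset : E \ T ⊆ E))
    rw [pr_up, hc, sdiff_sdiff_right_self, hE.rank] at h1
    have h2 : r (E ⊓ T) = f := by
      have e : E ⊓ T = T := inter_eq_right.2 hT.1
      rw [e]
      exact hT.2.1.2
    rw [h2] at h1
    omega
  · intro X hX
    have hXE : X ⊆ Eb E := hX.trans sdiff_subset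
    have h1 := ds_add hE.rk hXE
    rw [hE.rank] at h1
    have h2 : X.card ≤ (pr X).card + (pr X ∩ T).card := by
      have h3 : X ⊆ (pr X).image (fun e => (e, false)) ∪ (pr X ∩ T).image (fun e => (e, true)) := by
        rintro ⟨e, i⟩ he
        have h4 : e ∈ pr X := mem_pr.2 ⟨i, he⟩
        cases i with
        | false => exact mem_union_left _ (mem_image.2 ⟨e, h4, rfl⟩)
        | true =>
          refine mem_union_right _ (mem_image.2 ⟨e, mem_inter.2 ⟨h4, ?_⟩, rfl⟩)
          by_contra h5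
          have h6 := mem_sdiff.1 (hX he)
          exact h6.2 (mem_up.2 ⟨mem_sdiff.2 ⟨mem_Eb.1 h6.1, h5⟩, rfl⟩)
      have h4 := card_le_card h3
      have h5 := card_union_le ((pr X).image (fun e => (e, false))) ((pr X ∩ T).image (fun e => (e, true)))
      have h6 : ((pr X).image (fun e => (e, false))).card ≤ (pr X).card := card_image_le
      have h7 : ((pr X ∩ T).image (fun e => (e, true))).card ≤ (pr X ∩ T).card := card_image_le
      omega
    have h3 := hT.2.2 ((E \ pr X) \ T) (sdiff_subset_sdiff sdiff_subset (subset_refl T))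
    have h4 := hE.rk.mono ((E \ pr X) \ T) (E \ pr X) sdiff_subset
    have h5 : ((E \ pr X) \ T).card + (pr X \ T).card = (E \ T).card := by
      rw [← card_union_of_disjoint]
      · congr 1
        ext z
        have h7 : z ∈ pr X → z ∈ E := fun h => pr_sub hXE h
        simp only [mem_union, mem_sdiff]
        tauto
      · rw [Finset.disjoint_left]
        intro z hz hz'
        exact (mem_sdiff.1 (mem_sdiff.1 hz).1).2 (mem_sdiff.1 hz').1
    have h6 := card_sdiff_add_card_inter (pr X) T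
    omega

theorem gd_pr (hE : Env r E f) {Y : Finset (α × Bool)} (hY : Gd (ds r E) (Eb E) (2 * f) Y) :
    Gd r E f (E \ pr Y) := by
  obtain ⟨h1, h2⟩ := bs_ds hE hY.1 hY.2.1
  refine ⟨sdiff_subset, h2, ?_⟩
  intro G hG
  have hGE : G ⊆ E := hG.trans sdiff_subset
  have hGY : G ⊆ pr Y := by
    intro z hz
    have h3 := mem_sdiff.1 (hG hz)
    by_contra h4
    exact h3.2 (mem_sdiff.2 ⟨h3.1, h4⟩)
  have h3 := hY.2.2 (Eb (E \ G) \ Y) (sdiff_subset_sdiff (by
    rintro ⟨e, i⟩ he
    exact mem_Eb.2 (mem_sdiff.1 (mem_Eb.1 he)).1) (subset_refl Y))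
  have h4 : ds r E (Eb (E \ G) \ Y) ≤ ds r E (Eb (E \ G)) := (ds_rank hE.rk E).mono _ _ sdiff_subset
  have hsub : Eb (E \ G) ⊆ Eb E := by
    rintro ⟨e, i⟩ he
    exact mem_Eb.2 (mem_sdiff.1 (mem_Eb.1 he)).1
  have h5 := ds_add hE.rk hsub
  rw [pr_Eb, sdiff_sdiff_right_self, hE.rank] at h5
  have e1 : r (E ⊓ G) = r G := by
    have e : E ⊓ G = G := inter_eq_right.2 hGE
    rw [e]
  rw [e1] at h5
  have h6 := card_sdiff_add_card_inter (Eb (E \ G)) Y
  rw [card_Eb] at h6
  have h7 : (Eb (E \ G) ∩ Y).card + G.card ≤ Y.card := by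
    have h8 : (Y \ (Eb (E \ G) ∩ Y)).card + (Eb (E \ G) ∩ Y).card = Y.card :=
      card_sdiff_add_card_eq_card inter_subset_right
    have h9 : G ⊆ pr (Y \ (Eb (E \ G) ∩ Y)) := by
      intro z hz
      obtain ⟨i, hi⟩ := mem_pr.1 (hGY hz)
      refine mem_pr.2 ⟨i, mem_sdiff.2 ⟨hi, fun h => ?_⟩⟩
      exact (mem_sdiff.1 (mem_Eb.1 (mem_inter.1 h).1)).2 hz
    have h10 := card_le_card h9
    have h11 : (pr (Y \ (Eb (E \ G) ∩ Y))).card ≤ (Y \ (Eb (E \ G) ∩ Y)).card := card_image_le
    omega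
  have h8 := card_sdiff_add_card_eq_card hGE
  have h9 := hY.2.1.1
  rw [hE.card] at h8
  omega

theorem stp_pr (hE : Env r E f) {Y Y' : Finset (α × Bool)} (h : Stp (ds r E) (Eb E) (2 * f) Y Y') :
    Stp r E f (E \ pr Y) (E \ pr Y') := by
  obtain ⟨hY, hY', hb, hb', C, hC, hd, hd', hbC, hD, hD'⟩ := h
  have key : ∀ Z : Finset (α × Bool), Z ⊆ Eb E → Bs (ds r E) (2 * f) Z → Disjoint Z C →
      Bs (ds r E) (2 * f) (Eb E \ (Z ∪ C)) → Disjoint (E \ pr Z) (E \ pr C) ∧
        Bs r f (E \ (E \ pr Z ∪ E \ pr C)) := by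
    intro Z hZ hbZ hdZ hDZ
    have hinj : ∀ W : Finset (α × Bool), W ⊆ Eb E → Bs (ds r E) (2 * f) W → ∀ e,
        (e, true) ∈ W → (e, false) ∈ W → False := fun W hW hbW e h1 h2 => bs_inj (by
          rw [(bs_ds hE hW hbW).1, hbW.1]) h1 h2
    have hdis : ∀ e ∈ E, e ∈ pr Z ∨ e ∈ pr C := by
      intro e he
      by_contra hcon
      push Not at hcon
      have h1 : ∀ i, (e, i) ∈ Eb E \ (Z ∪ C) := fun i => by
        rw [mem_sdiff, mem_union]
        refine ⟨mem_Eb.2 he, ?_⟩
        rintro (h | h)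
        · exact hcon.1 (mem_pr.2 ⟨i, h⟩)
        · exact hcon.2 (mem_pr.2 ⟨i, h⟩)
      exact hinj _ sdiff_subset hDZ e (h1 true) (h1 false)
    constructor
    · rw [Finset.disjoint_left]
      intro e he he'
      rcases hdis e (mem_sdiff.1 he).1 with h | h
      · exact (mem_sdiff.1 he).2 h
      · exact (mem_sdiff.1 he').2 h
    · have e1 : E \ (E \ pr Z ∪ E \ pr C) = E \ pr (Eb E \ (Z ∪ C)) := by
        ext e
        rw [mem_sdiff, mem_union, mem_sdiff, mem_sdiff, mem_sdiff]
        constructor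
        · rintro ⟨h1, h2⟩
          refine ⟨h1, fun h3 => ?_⟩
          obtain ⟨i, hi⟩ := mem_pr.1 h3
          push Not at h2
          obtain ⟨j, hj⟩ := mem_pr.1 (h2.1 h1)
          obtain ⟨k, hk⟩ := mem_pr.1 (h2.2 h1)
          rw [mem_sdiff, mem_union] at hi
          push Not at hi
          have h4 : j ≠ i := fun h => hi.2.1 (h ▸ hj)
          have h5 : k ≠ i := fun h => hi.2.2 (h ▸ hk)
          have h6 : j ≠ k := by
            rintro rfl
            exact Finset.disjoint_left.1 hdZ hj hk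
          cases i <;> cases j <;> cases k <;> simp_all
        · rintro ⟨h1, h2⟩
          refine ⟨h1, ?_⟩
          rintro (h3 | h3)
          · -- both copies in `C`
            have h4 : ∀ i, (e, i) ∈ C := fun i => by
              by_contra h5
              refine h2 (mem_pr.2 ⟨i, mem_sdiff.2 ⟨mem_Eb.2 h1, ?_⟩⟩)
              rw [mem_union]
              rintro (h6 | h6)
              · exact h3.2 (mem_pr.2 ⟨i, h6⟩)
              · exact h5 h6
            exact hinj C hC hbC e (h4 true) (h4 false)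
          · have h4 : ∀ i, (e, i) ∈ Z := fun i => by
              by_contra h5
              refine h2 (mem_pr.2 ⟨i, mem_sdiff.2 ⟨mem_Eb.2 h1, ?_⟩⟩)
              rw [mem_union]
              rintro (h6 | h6)
              · exact h5 h6
              · exact h3.2 (mem_pr.2 ⟨i, h6⟩)
            exact hinj Z hZ hbZ e (h4 true) (h4 false)
      rw [e1]
      exact (bs_ds hE sdiff_subset hDZ).2
  obtain ⟨k1, k2⟩ := key Y hY hb hd hD
  obtain ⟨k3, k4⟩ := key Y' hY' hb' hd' hD'
  exact ⟨sdiff_subset, sdiff_subset, (bs_ds hE hY hb).2, (bs_ds hE hY' hb').2, E \ pr C, sdiff_subset, k1, k3,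
    (bs_ds hE hC hbC).2, k2, k4⟩

end Pool.Agent.DU59
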