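import Pool.Agent.WG59.Cl1

/-!
The dual rank function with all elements doubled.

* `dr r E Y = |Y ∩ E| + r (E \ Y) - r E`: the dual rank function;
* `pr Y`: the first components of the elements of `Y`;
* `ds r E Y = dr r E (pr Y)`;
* `Eb E`: the doubled ground set, `up Y`: the first copies of the elements of `Y`.
-/

set_option autoImplicit false

namespace Pool.Agent.DU59

open Finset Pool.Agent.DT3 Pool.Agent.CF98 Pool.Agent.WT59 Pool.Agent.WG59

variable {α : Type*} [DecidableEq α] {r : Finset α → ℕ} {E X Y A b : Finset α} {f : ℕ}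

/-- The dual rank function. -/
def dr (r : Finset α → ℕ) (E Y : Finset α) : ℕ := (Y ∩ E).card + r (E \ Y) - r E

theorem dr_add (hr : RankFn r) (E Y : Finset α) : dr r E Y + r E = (Y ∩ E).card + r (E \ Y) := by
  unfold dr
  have h1 := rk_le_union_card hr (E \ Y) (Y ∩ E)
  have h2 := hr.mono E (E \ Y ∪ Y ∩ E) (by
    intro z hz
    rw [mem_union, mem_sdiff, mem_inter]
    tauto)
  omega

theorem dr_rank (hr : RankFn r) (E : Finset α) : RankFn (dr r E) where
  empty := by
    have h := dr_add hr E ∅
    rw [empty_inter, card_empty, sdiff_empty] at h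
    omega
  mono := fun X Y h => by
    have h1 := dr_add hr E X
    have h2 := dr_add hr E Y
    have h3 := rk_le_union_card hr (E \ Y) ((Y ∩ E) \ X)
    have h4 := hr.mono (E \ X) (E \ Y ∪ (Y ∩ E) \ X) (by
      intro z hz
      rw [mem_sdiff] at hz
      rw [mem_union, mem_sdiff, mem_sdiff, mem_inter]
      tauto)
    have h5 : ((Y ∩ E) \ X).card + (X ∩ E).card = (Y ∩ E).card := by
      have e1 : (Y ∩ E) \ X = (Y ∩ E) \ (X ∩ E) := by
        ext z
        simp only [mem_sdiff, mem_inter]
        tauto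
      rw [e1]
      exact card_sdiff_add_card_eq_card (inter_subset_inter h (subset_refl E))
    omega
  insert_le := fun y X => by
    have h1 := dr_add hr E X
    have h2 := dr_add hr E (insert y X)
    have h3 := hr.mono (E \ insert y X) (E \ X) (sdiff_subset_sdiff (subset_refl E) (subset_insert y X))
    have h4 : (insert y X ∩ E).card ≤ (X ∩ E).card + 1 := by
      have h5 : insert y X ∩ E ⊆ insert y (X ∩ E) := by
        intro z hz
        rw [mem_inter, mem_insert] at hz
        rw [mem_insert, mem_inter]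
        tauto
      exact (card_le_card h5).trans (card_insert_le _ _)
    omega
  submod := fun X Y => by
    have h1 := dr_add hr E X
    have h2 := dr_add hr E Y
    have h3 := dr_add hr E (X ∪ Y)
    have h4 := dr_add hr E (X ∩ Y)
    have h5 := hr.submod (E \ X) (E \ Y)
    have e1 : E \ X ∪ E \ Y = E \ (X ∩ Y) := by
      ext z
      simp only [mem_union, mem_sdiff, mem_inter]
      tauto
    have e2 : (E \ X) ∩ (E \ Y) = E \ (X ∪ Y) := by
      ext z
      simp only [mem_union, mem_sdiff, mem_inter]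
      tauto
    rw [e1, e2] at h5
    have h6 := card_union_add_card_inter (X ∩ E) (Y ∩ E)
    have e3 : X ∩ E ∪ Y ∩ E = (X ∪ Y) ∩ E := by
      ext z
      simp only [mem_union, mem_inter]
      tauto
    have e4 : X ∩ E ∩ (Y ∩ E) = (X ∩ Y) ∩ E := by
      ext z
      simp only [mem_inter]
      tauto
    rw [e3, e4] at h6
    omega

/-- The first components. -/
def pr (Y : Finset (α × Bool)) : Finset α := Y.image Prod.fst

theorem mem_pr {Y : Finset (α × Bool)} {e : α} : e ∈ pr Y ↔ ∃ i, (e, i) ∈ Y := by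
  unfold pr
  rw [mem_image]
  constructor
  · rintro ⟨⟨a, i⟩, h, rfl⟩
    exact ⟨i, h⟩
  · rintro ⟨i, h⟩
    exact ⟨(e, i), h, rfl⟩

theorem pr_mono {X Y : Finset (α × Bool)} (h : X ⊆ Y) : pr X ⊆ pr Y := image_subset_image h

theorem pr_union (X Y : Finset (α × Bool)) : pr (X ∪ Y) = pr X ∪ pr Y := image_union X Y

theorem pr_insert (x : α × Bool) (Y : Finset (α × Bool)) : pr (insert x Y) = insert x.1 (pr Y) :=
  image_insert _ _ _

/-- The rank function of the doubled matroid. -/
def ds (r : Finset α → ℕ) (E : Finset α) (Y : Finset (α × Bool)) : ℕ := dr r E (pr Y)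

theorem ds_rank (hr : RankFn r) (E : Finset α) : RankFn (ds r E) where
  empty := by
    unfold ds pr
    rw [image_empty]
    exact (dr_rank hr E).empty
  mono := fun X Y h => (dr_rank hr E).mono _ _ (pr_mono h)
  insert_le := fun y X => by
    unfold ds
    rw [pr_insert]
    exact (dr_rank hr E).insert_le _ _
  submod := fun X Y => by
    unfold ds
    rw [pr_union]
    have h1 := (dr_rank hr E).submod (pr X) (pr Y)
    have h2 := (dr_rank hr E).mono (pr (X ∩ Y)) (pr X ∩ pr Y)
      (subset_inter (pr_mono inter_subset_left) (pr_mono inter_subset_right))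
    omega

/-- The doubled ground set. -/
def Eb (E : Finset α) : Finset (α × Bool) := E ×ˢ (univ : Finset Bool)

theorem mem_Eb {e : α} {i : Bool} : (e, i) ∈ Eb E ↔ e ∈ E := by
  unfold Eb
  rw [mem_product]
  exact ⟨fun h => h.1, fun h => ⟨h, mem_univ i⟩⟩

theorem card_Eb : (Eb E).card = 2 * E.card := by
  unfold Eb
  rw [card_product, card_univ, Fintype.card_bool, mul_comm]

theorem pr_Eb : pr (Eb E) = E := by
  ext e
  rw [mem_pr]
  constructor
  · rintro ⟨i, h⟩
    exact mem_Eb.1 h
  · exact fun h => ⟨true, mem_Eb.2 h⟩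

theorem pr_sub {Y : Finset (α × Bool)} (h : Y ⊆ Eb E) : pr Y ⊆ E := by
  have := pr_mono h
  rwa [pr_Eb] at this

/-- The first copies. -/
def up (Y : Finset α) : Finset (α × Bool) := Y.image fun e => (e, true)

theorem mem_up {e : α} {i : Bool} : (e, i) ∈ up Y ↔ e ∈ Y ∧ i = true := by
  unfold up
  rw [mem_image]
  constructor
  · rintro ⟨a, h, h'⟩
    rw [Prod.mk.injEq] at h'
    exact ⟨h'.1 ▸ h, h'.2.symm⟩
  · rintro ⟨h, rfl⟩
    exact ⟨e, h, rfl⟩

theorem card_up : (up Y).card = Y.card :=
  card_image_of_injective _ fun a b h => congrArg Prod.fst h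

theorem pr_up : pr (up Y) = Y := by
  ext e
  rw [mem_pr]
  constructor
  · rintro ⟨i, h⟩
    exact (mem_up.1 h).1
  · exact fun h => ⟨true, mem_up.2 ⟨h, rfl⟩⟩

theorem up_sub (h : Y ⊆ E) : up Y ⊆ Eb E := by
  rintro ⟨e, i⟩ he
  exact mem_Eb.2 (h (mem_up.1 he).1)

/-- The number of elements of a set of copies. -/
theorem card_le_pr (Y : Finset (α × Bool)) : Y.card ≤ 2 * (pr Y).card := by
  have h : Y ⊆ Eb (pr Y) := by
    rintro ⟨e, i⟩ he
    exact mem_Eb.2 (mem_pr.2 ⟨i, he⟩)
  have := card_le_card h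
  rwa [card_Eb] at this

theorem ds_add (hr : RankFn r) {Y : Finset (α × Bool)} (hY : Y ⊆ Eb E) :
    ds r E Y + r E = (pr Y).card + r (E \ pr Y) := by
  have h := dr_add hr E (pr Y)
  rw [inter_eq_left.2 (pr_sub hY)] at h
  exact h

/-- The standing assumptions for the doubled dual. -/
theorem env_ds (hE : Env r E f) : Env (ds r E) (Eb E) (2 * f) where
  rk := ds_rank hE.rk E
  card := by
    rw [card_Eb, hE.card]
    ring
  rank := by
    have h := ds_add hE.rk (subset_refl (Eb E))
    rw [pr_Eb, hE.card, hE.rank, sdiff_self] at h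
    have h0 : r (⊥ : Finset α) = 0 := hE.rk.empty
    rw [h0] at h
    omega
  three := by
    intro X hX
    have h1 := ds_add hE.rk hX
    have h2 := hE.three (E \ pr X) sdiff_subset
    have h3 := card_sdiff_add_card_eq_card (pr_sub hX)
    have h4 := card_le_pr X
    rw [hE.rank] at h1
    rw [hE.card] at h3
    omega

/-- Bases of the doubled dual. -/
theorem bs_ds (hE : Env r E f) {Y : Finset (α × Bool)} (hY : Y ⊆ Eb E) (h : Bs (ds r E) (2 * f) Y) :
    (pr Y).card = 2 * f ∧ Bs r f (E \ pr Y) := by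
  have h1 := ds_add hE.rk hY
  have h2 : (pr Y).card ≤ Y.card := card_image_le
  have h3 := card_sdiff_add_card_eq_card (pr_sub hY)
  have h4 := hE.rk.mono _ _ (sdiff_subset : E \ pr Y ⊆ E)
  have h5 := hE.rk.le_card (E \ pr Y)
  have h6 := h.1
  have h7 := h.2
  rw [hE.rank] at h1 h4
  rw [hE.card] at h3
  refine ⟨by omega, by omega, by omega⟩

theorem bs_inj {Y : Finset (α × Bool)} (h : (pr Y).card = Y.card) {e : α}
    (h1 : (e, true) ∈ Y) (h2 : (e, false) ∈ Y) : False := by
  have h3 : Set.InjOn Prod.fst (Y : Set (α × Bool)) := by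
    unfold pr at h
    exact card_image_iff.1 h
  have h4 := h3 (mem_coe.2 h1) (mem_coe.2 h2) rfl
  rw [Prod.mk.injEq] at h4
  exact Bool.noConfusion h4.2

end Pool.Agent.DU59
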